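import Pool.Agent.H97.VG.KY
import Pool.Agent.H17.VG.TargetsD

/-!
# Module NA of vyc_modules
-/

set_option autoImplicit false

namespace Pool.Agent.H97.VG

open MvPolynomial Pool.Agent.H17.VG Pool.Agent.H27.LV

section

variable {R K : Type} [Field R] [Field K] [Algebra R K] {n : ℕ}

theorem opF_nul (F : MvPolynomial (Fin (n + 1)) K) : opF (0 : Op R K n) F = 0 := by
  have h := opF_lin (0 : Op R K n) 0 0 0 F
  rwa [C_0, zero_mul, add_zero, zero_smul, add_zero] at h

theorem opV_nul (z : Fin (n + 1) → K) : opV (0 : Op R K n) z = 0 := by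
  have h := opV_lin (0 : Op R K n) 0 0 0 z
  rwa [zero_smul, add_zero, zero_smul, add_zero] at h

theorem opF_add' (τ τ' : Op R K n) (F : MvPolynomial (Fin (n + 1)) K) :
    opF (τ + τ') F = opF τ F + opF τ' F := by
  have h := opF_lin τ τ' 1 1 F
  rwa [one_smul, one_smul, C_1, one_mul, one_mul] at h

theorem opV_add' (τ τ' : Op R K n) (z : Fin (n + 1) → K) :
    opV (τ + τ') z = opV τ z + opV τ' z := by
  have h := opV_lin τ τ' 1 1 z
  rwa [one_smul, one_smul, one_smul, one_smul] at h

theorem opF_smul' (a : K) (τ : Op R K n) (F : MvPolynomial (Fin (n + 1)) K) :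
    opF (a • τ) F = C a * opF τ F := by
  have h := opF_lin τ 0 a 0 F
  rwa [zero_smul, add_zero, C_0, zero_mul, add_zero] at h

theorem opV_smul' (a : K) (τ : Op R K n) (z : Fin (n + 1) → K) :
    opV (a • τ) z = a • opV τ z := by
  have h := opV_lin τ 0 a 0 z
  rwa [zero_smul, add_zero, zero_smul, add_zero] at h

theorem opF_sum' {ι : Type} (s : Finset ι) (τ : ι → Op R K n)
    (F : MvPolynomial (Fin (n + 1)) K) : opF (∑ i ∈ s, τ i) F = ∑ i ∈ s, opF (τ i) F := by
  classical
  induction s using Finset.induction_on with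
  | empty => rw [Finset.sum_empty, Finset.sum_empty, opF_nul]
  | insert i s hi ih => rw [Finset.sum_insert hi, Finset.sum_insert hi, opF_add', ih]

theorem opV_sum' {ι : Type} (s : Finset ι) (τ : ι → Op R K n)
    (z : Fin (n + 1) → K) : opV (∑ i ∈ s, τ i) z = ∑ i ∈ s, opV (τ i) z := by
  classical
  induction s using Finset.induction_on with
  | empty => rw [Finset.sum_empty, Finset.sum_empty, opV_nul]
  | insert i s hi ih => rw [Finset.sum_insert hi, Finset.sum_insert hi, opV_add', ih]

/-- the velocities of the operators with symbols in a span -/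
theorem ut_le {d : ℕ} {F : MvPolynomial (Fin (n + 1)) K} {D : Derivation R K K} (hS : Sys d F D)
    (x : Fin (n + 1) → K) (g : Set (MvPolynomial (Fin (n + 1)) K))
    (N : Submodule K (Fin (n + 1) → K)) (hx : x ∈ N) (hD : (fun i => D (x i)) ∈ N)
    (h : ∀ G ∈ g, ∃ τ : Op R K n, opF τ F = G ∧ opV τ x ∈ N) :
    Ut R F x (Submodule.span K g) ≤ N := by
  have key : ∀ G ∈ Submodule.span K g, ∃ τ : Op R K n, opF τ F = G ∧ opV τ x ∈ N := by
    intro G hG
    induction hG using Submodule.span_induction with
    | mem G hG => exact h G hG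
    | zero => exact ⟨0, opF_nul F, by rw [opV_nul]; exact N.zero_mem⟩
    | add G G' _ _ h1 h2 =>
      obtain ⟨τ, h3, h4⟩ := h1
      obtain ⟨τ', h5, h6⟩ := h2
      exact ⟨τ + τ', by rw [opF_add', h3, h5], by rw [opV_add']; exact N.add_mem h4 h6⟩
    | smul a G _ h1 =>
      obtain ⟨τ, h3, h4⟩ := h1
      exact ⟨a • τ, by rw [opF_smul', h3, C_mul'], by rw [opV_smul']; exact N.smul_mem a h4⟩
  unfold Ut
  rw [Submodule.span_le]
  rintro w (⟨τ, h1, h2⟩ | h1)
  · obtain ⟨τ', h3, h4⟩ := key _ h1
    obtain ⟨c, hc⟩ := wd R K n d F D hS τ τ' h3.symm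
    rw [SetLike.mem_coe, h2, hc]
    exact N.add_mem h4 (N.smul_mem c hD)
  · rw [Set.mem_singleton_iff.1 h1]
    exact hx

theorem opF_D {d : ℕ} {F : MvPolynomial (Fin (n + 1)) K} {D : Derivation R K K} (hS : Sys d F D) :
    opF ((D, 0) : Op R K n) F = 0 := by
  rw [opF_eq]
  have h1 : mF (0 : Matrix (Fin (n + 1)) (Fin (n + 1)) K) F = 0 := by
    unfold mF
    refine Finset.sum_eq_zero fun i _ => ?_
    rw [Finset.sum_eq_zero, zero_mul]
    intro j _
    rw [Matrix.zero_apply, C_0, zero_mul]
  change cD D F + mF 0 F = 0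
  rw [hS.base, h1, add_zero]

theorem opV_D (D : Derivation R K K) (x : Fin (n + 1) → K) :
    opV ((D, 0) : Op R K n) x = fun i => D (x i) := by
  funext i
  unfold opV
  change D (x i) - ∑ j, (0 : Matrix (Fin (n + 1)) (Fin (n + 1)) K) i j * x j = D (x i)
  rw [Finset.sum_eq_zero, sub_zero]
  intro j _
  rw [Matrix.zero_apply, zero_mul]

theorem Dx_mem_ut {d : ℕ} {F : MvPolynomial (Fin (n + 1)) K} {D : Derivation R K K}
    (hS : Sys d F D) (x : Fin (n + 1) → K) (W : Submodule K (MvPolynomial (Fin (n + 1)) K)) :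
    (fun i => D (x i)) ∈ Ut R F x W := by
  refine Submodule.subset_span (Or.inl ⟨(D, 0), ?_, (opV_D D x).symm⟩)
  rw [opF_D hS]
  exact W.zero_mem

theorem x_mem_ut (F : MvPolynomial (Fin (n + 1)) K)
    (x : Fin (n + 1) → K) (W : Submodule K (MvPolynomial (Fin (n + 1)) K)) :
    x ∈ Ut R F x W := Submodule.subset_span (Or.inr rfl)

/-- symbol of a combination -/
theorem opF_comb {s : ℕ} (F : MvPolynomial (Fin (n + 1)) K)
    (Q : Fin s → MvPolynomial (Fin (n + 1)) K)
    (τ : Fin (n + 1) → Fin s → Op R K n) (hτ : ∀ i j, opF (τ i j) F = X i * Q j)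
    (ξ : Fin (n + 1) → K) (j : Fin s) : opF (∑ i, ξ i • τ i j) F = lin ξ * Q j := by
  rw [opF_sum']
  unfold lin
  rw [Finset.sum_mul]
  refine Finset.sum_congr rfl fun i _ => ?_
  rw [opF_smul', hτ, mul_assoc]

end

/-- the vector `w` in the upper rows -/
noncomputable def up1 (K : Type) [Field K] (n s : ℕ) :
    (Fin (n + 1) → K) →ₗ[K] (Fin (n + 1) ⊕ Fin s → K) where
  toFun w := Sum.elim w 0
  map_add' a b := by
    funext r
    rcases r with r | r
    · rfl
    · exact (add_zero (0 : K)).symm
  map_smul' c a := by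
    funext r
    rcases r with r | r
    · rfl
    · exact (smul_zero c).symm

theorem det_ne_zero_of_indep {ι m : Type} [Fintype ι] [DecidableEq ι] {K : Type}
    [Field K] (e0 : ι ≃ m) (M : Matrix m ι K) (h : LinearIndependent K (fun c r => M r c)) :
    (M.submatrix e0 id).det ≠ 0 := by
  have h1 : LinearIndependent K (M.submatrix e0 id).col := by
    have h2 := h.map' (LinearEquiv.funCongrLeft K K e0).toLinearMap
      (LinearEquiv.ker (LinearEquiv.funCongrLeft K K e0))
    exact h2
  have h3 := Matrix.linearIndependent_cols_iff_isUnit.1 h1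
  rw [Matrix.isUnit_iff_isUnit_det] at h3
  exact h3.ne_zero

/-- NA -/
theorem na : T_NA := by
  classical
  intro R k K _ _ _ _ _ _ n e s F D D' x p hp hS hDD hx Q τ hτ hU
  set M := bigM D x (fun c : Fin (n + 1) × Fin s => τ c.1 c.2) (fun c => c.1) (fun c => c.2)
    with hM
  set v : (Fin (n + 1) × Fin s) ⊕ Fin 2 → (Fin (n + 1) ⊕ Fin s → K) := fun c r => M r c with hv
  have hv0 : v (Sum.inr 0) = up1 K n s (fun i => D (x i)) := by
    funext r
    rcases r with r | r <;> rfl
  have hv1 : v (Sum.inr 1) = up1 K n s x := by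
    funext r
    rcases r with r | r <;> rfl
  have hvc : ∀ i j, v (Sum.inl (i, j)) = Sum.elim (opV (τ i j) x)
      (fun b => if j = b then x i else 0) := by
    intro i j
    funext r
    rcases r with r | r <;> rfl
  -- the columns span
  have hN : Ut R F x (PQ x Q) ≤ (Submodule.span K (Set.range v)).comap (up1 K n s) := by
    refine ut_le hS x _ _ ?_ ?_ ?_
    · rw [Submodule.mem_comap, ← hv1]
      exact Submodule.subset_span ⟨_, rfl⟩
    · rw [Submodule.mem_comap]
      have h1 : (fun i => D' (x i)) = fun i => D (x i) := by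
        funext i
        exact hDD (x i)
      rw [h1, ← hv0]
      exact Submodule.subset_span ⟨_, rfl⟩
    · rintro G ⟨ξ, j, h1, h2⟩
      refine ⟨∑ i, ξ i • τ i j, by rw [opF_comb F Q τ hτ, h2], ?_⟩
      rw [Submodule.mem_comap]
      have h3 : up1 K n s (opV (∑ i, ξ i • τ i j) x) = ∑ i, ξ i • v (Sum.inl (i, j)) := by
        rw [opV_sum']
        funext r
        rcases r with r | r
        · change (∑ i, opV (ξ i • τ i j) x) r = _
          rw [Finset.sum_apply, Finset.sum_apply]
          refine Finset.sum_congr rfl fun i _ => ?_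
          rw [opV_smul', hvc]
          rfl
        · change (0 : K) = _
          rw [Finset.sum_apply]
          by_cases hr : j = r
          · rw [← h1]
            refine Finset.sum_congr rfl fun i _ => ?_
            rw [hvc, Pi.smul_apply, Sum.elim_inr, if_pos hr, smul_eq_mul]
          · symm
            refine Finset.sum_eq_zero fun i _ => ?_
            rw [hvc, Pi.smul_apply, Sum.elim_inr, if_neg hr, smul_zero]
      rw [h3]
      exact Submodule.sum_mem _ fun i _ => Submodule.smul_mem _ _ (Submodule.subset_span ⟨_, rfl⟩)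
  have hTop : Ut R F x (PQ x Q) = ⊤ := by
    refine Submodule.eq_top_of_finrank_eq ?_
    rw [hU, Module.finrank_fin_fun]
  have hup : ∀ w, up1 K n s w ∈ Submodule.span K (Set.range v) := by
    intro w
    have h1 : w ∈ Ut R F x (PQ x Q) := by
      rw [hTop]
      exact Submodule.mem_top
    exact hN h1
  have hspan : Submodule.span K (Set.range v) = ⊤ := by
    rw [eq_top_iff]
    intro f _
    have h1 : f = up1 K n s (fun i => f (Sum.inl i)) +
        ∑ b, f (Sum.inr b) • (v (Sum.inl (p, b)) - up1 K n s (opV (τ p b) x)) := by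
      funext r
      rw [Pi.add_apply, Finset.sum_apply]
      rcases r with r | r
      · rw [Finset.sum_eq_zero]
        · exact (add_zero _).symm
        · intro b _
          rw [Pi.smul_apply, Pi.sub_apply, hvc]
          change f (Sum.inr b) • (opV (τ p b) x r - opV (τ p b) x r) = 0
          rw [sub_self, smul_zero]
      · rw [Finset.sum_eq_single r]
        · rw [Pi.smul_apply, Pi.sub_apply, hvc]
          change f (Sum.inr r) = 0 + f (Sum.inr r) • ((if r = r then x p else 0) - 0)
          rw [if_pos rfl, hp, sub_zero, zero_add, smul_eq_mul, mul_one]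
        · intro b _ hb
          rw [Pi.smul_apply, Pi.sub_apply, hvc]
          change f (Sum.inr b) • ((if b = r then x p else 0) - 0) = 0
          rw [if_neg hb, sub_zero, smul_zero]
        · intro h
          exact absurd (Finset.mem_univ r) h
    rw [h1]
    refine Submodule.add_mem _ (hup _) (Submodule.sum_mem _ fun b _ => Submodule.smul_mem _ _
      (Submodule.sub_mem _ (Submodule.subset_span ⟨_, rfl⟩) (hup _)))
  -- the last two columns are independent
  have hind : LinearIndepOn K v (Set.range (Sum.inr : Fin 2 → (Fin (n + 1) × Fin s) ⊕ Fin 2)) := by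
    rw [linearIndepOn_range_iff Sum.inr_injective]
    have h1 : v ∘ (Sum.inr : Fin 2 → (Fin (n + 1) × Fin s) ⊕ Fin 2) =
        ![v (Sum.inr 0), v (Sum.inr 1)] := by
      funext t
      fin_cases t <;> rfl
    rw [h1, LinearIndependent.pair_iff, hv0, hv1]
    intro a b hab
    have h2 := (LinearIndependent.pair_iff.1 hx) b a (by
      rw [← map_smul, ← map_smul, ← map_add] at hab
      funext i
      have h3 := congrFun hab (Sum.inl i)
      change a * D (x i) + b * x i = 0 at h3
      change b * x i + a * D (x i) = 0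
      rw [← h3]
      ring)
    exact ⟨h2.2, h2.1⟩
  obtain ⟨B, -, hB1, hB2, hB3⟩ := exists_linearIndepOn_extension hind (Set.subset_univ _)
  set T : Finset (Fin (n + 1) × Fin s) := Finset.univ.filter fun c => Sum.inl c ∈ B with hT
  let g : T ⊕ Fin 2 → (Fin (n + 1) × Fin s) ⊕ Fin 2 := Sum.map (fun c => c.1) id
  have hg : Function.Injective g := Subtype.val_injective.sumMap Function.injective_id
  have hgB : Set.range g = B := by
    ext c
    constructor
    · rintro ⟨c | t, rfl⟩
      · exact (Finset.mem_filter.1 c.2).2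
      · exact hB1 ⟨t, rfl⟩
    · intro hc
      rcases c with c | t
      · exact ⟨Sum.inl ⟨c, Finset.mem_filter.2 ⟨Finset.mem_univ c, hc⟩⟩, rfl⟩
      · exact ⟨Sum.inr t, rfl⟩
  have hli : LinearIndependent K (v ∘ g) := by
    rw [← linearIndepOn_range_iff hg, hgB]
    exact hB3
  have hsp : Submodule.span K (Set.range (v ∘ g)) = ⊤ := by
    rw [Set.range_comp, hgB, eq_top_iff, ← hspan, Submodule.span_le]
    rw [Set.image_univ] at hB2
    exact hB2
  have hcard : Fintype.card (T ⊕ Fin 2) = Fintype.card (Fin (n + 1) ⊕ Fin s) := by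
    have h1 := finrank_span_eq_card hli
    rw [hsp, finrank_top, Module.finrank_fintype_fun_eq_card] at h1
    exact h1.symm
  refine ⟨T, Fintype.equivOfCardEq hcard, ?_⟩
  refine det_ne_zero_of_indep (Fintype.equivOfCardEq hcard) _ ?_
  have h1 : (fun (c : T ⊕ Fin 2) (r : Fin (n + 1) ⊕ Fin s) =>
      bigM D x (fun c : T => τ c.1.1 c.1.2) (fun c => c.1.1) (fun c => c.1.2) r c) = v ∘ g := by
    funext c r
    rcases c with c | c <;> rcases r with r | r <;> rfl
  rw [h1]
  exact hli

end Pool.Agent.H97.VG
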