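import Pool.Agent.H97.VG.BR

/-!
# Modules KY, JY of vyc_modules
-/

set_option autoImplicit false

namespace Pool.Agent.H97.VG

open MvPolynomial Pool.Agent.H17.VG Pool.Agent.H27.LV

section

variable {R K : Type} [Field R] [Field K] [Algebra R K] {n : ℕ}

theorem dir_lin (w ξ : Fin (n + 1) → K) : dir w (lin ξ) = C (∑ i, ξ i * w i) := by
  unfold lin
  rw [dir_sum, map_sum]
  refine Finset.sum_congr rfl fun j _ => ?_
  rw [dir_mul, dir_C, dir_X, zero_mul, zero_add, C_mul]

theorem res_lin (x y ξ : Fin (n + 1) → K) : res x y (lin ξ) =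
    Polynomial.C (∑ i, ξ i * x i) + Polynomial.C (∑ i, ξ i * y i) * Polynomial.X := by
  unfold lin
  rw [res_sum, map_sum, map_sum, Finset.sum_mul, ← Finset.sum_add_distrib]
  refine Finset.sum_congr rfl fun j _ => ?_
  rw [res_mul, res_C, res_X, Polynomial.C_mul, Polynomial.C_mul]
  ring

theorem dir_smul (a : K) (w : Fin (n + 1) → K) (G : MvPolynomial (Fin (n + 1)) K) :
    dir (a • w) G = C a * dir w G := by
  unfold dir
  rw [Finset.mul_sum]
  refine Finset.sum_congr rfl fun i _ => ?_
  rw [Pi.smul_apply, smul_eq_mul, C_mul, mul_assoc]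

theorem opV_smul (τ : Op R K n) (c : K) (z : Fin (n + 1) → K) :
    opV τ (c • z) = τ.1 c • z + c • opV τ z := by
  funext i
  rw [Pi.add_apply, Pi.smul_apply, Pi.smul_apply]
  unfold opV
  rw [Pi.smul_apply, smul_eq_mul, smul_eq_mul, smul_eq_mul, Derivation.leibniz, smul_eq_mul,
    smul_eq_mul, mul_sub, Finset.mul_sum]
  have h1 : ∑ j, τ.2 i j * (c • z) j = ∑ j, c * (τ.2 i j * z j) := by
    refine Finset.sum_congr rfl fun j _ => ?_
    rw [Pi.smul_apply, smul_eq_mul]
    ring
  rw [h1]
  ring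

end

/-- KY -/
theorem ky (hRS : T_RS) : T_KY := by
  intro R K _ _ _ _ n e F D x y ξ hS hx hy Q τ τ' a a' hQ h1 h2 h3 h4
  constructor
  · refine ⟨τ.1 a' - τ'.1 a, ?_⟩
    rw [br2, h2, h4, opV_smul, opV_smul, h2, h4, sub_smul, smul_smul, smul_smul, mul_comm a a']
    abel
  · have hl : res x y (lin ξ) = 0 := by
      rw [res_lin, hx, hy, Polynomial.C_0, zero_mul, zero_add]
    have hG' : res x y (lin ξ * Q) = 0 := by rw [res_mul, hl, zero_mul]
    have hd : ∀ w : Fin (n + 1) → K, res x y (dir w (lin ξ * Q)) =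
        Polynomial.C (∑ i, ξ i * w i) * res x y Q := by
      intro w
      rw [dir_mul, res_add, res_mul, res_mul, hl, zero_mul, add_zero, dir_lin, res_C]
    have e1 := re' τ (lin ξ * Q) x y
    rw [hG', pD_zero, h4, dir_smul, res_mul, hd, hd, hx, Polynomial.C_0, zero_mul, mul_zero,
      add_zero] at e1
    have hG : (opF τ F).IsHomogeneous (e + 1) := opF_homog τ F (e + 1) hS.homog
    have h5 : res x y (dir x (opF τ F)) = 0 :=
      ((hRS K n (e + 1) (opF τ F) 0 0 0 0 x y 0 0).2.2.2.2.2.2.2.2.2.2.2.2.2 hG h3).1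
    have e2 := re' τ' (opF τ F) x y
    rw [h3, pD_zero, h2, dir_smul, res_mul, h5, mul_zero, add_zero] at e2
    rw [br1, h1]
    have h6 : res x y (opF τ (lin ξ * Q) - opF τ' (opF τ F)) =
        res x y (opF τ (lin ξ * Q)) - res x y (opF τ' (opF τ F)) := by
      unfold res
      rw [map_sub]
    rw [h6]
    linear_combination e2 - e1

/-- JY -/
theorem jy (hRS : T_RS) (hLF : T_LF) : T_JY := by
  intro R K _ _ _ _ n e F D x y w hS hxy
  obtain ⟨⟨η, hx, hy⟩, -⟩ := hLF K n x y hxy
  refine Submodule.subset_span ⟨?_, (0, Matrix.of fun i j => w i * η j), ?_, ?_⟩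
  · exact (hRS K n e (dir w F) 0 0 0 0 x y 0 0).2.2.2.2.2.2.2.2.2.2.2.1
      ((hRS K n e F 0 w 0 0 x y 0 0).2.2.2.2.2.2.2.2.2.2.2.2.1 hS.homog)
  · have h1 : opF ((0, Matrix.of fun i j => w i * η j) : Op R K n) F = lin η * dir w F := by
      rw [opF_eq]
      have h2 : cD (0 : Derivation R K K) F = 0 := by
        ext m
        rw [cD_coeff, Derivation.zero_apply, coeff_zero]
      rw [h2, zero_add]
      unfold mF dir lin
      rw [Finset.mul_sum]
      refine Finset.sum_congr rfl fun i _ => ?_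
      rw [← mul_assoc, mul_comm _ (C (w i)), Finset.mul_sum]
      congr 1
      refine Finset.sum_congr rfl fun j _ => ?_
      change C (w i * η j) * X j = C (w i) * (C (η j) * X j)
      rw [C_mul, mul_assoc]
    rw [h1, res_mul, res_lin, hx, hy, Polynomial.C_0, Polynomial.C_1, zero_add, one_mul]
  · have h1 : opV ((0, Matrix.of fun i j => w i * η j) : Op R K n) x = 0 := by
      funext i
      unfold opV
      rw [Derivation.zero_apply, zero_sub, Pi.zero_apply, neg_eq_zero]
      have h2 : ∑ j, (Matrix.of fun i j => w i * η j) i j * x j = w i * ∑ j, η j * x j := by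
        rw [Finset.mul_sum]
        refine Finset.sum_congr rfl fun j _ => ?_
        rw [Matrix.of_apply, mul_assoc]
      rw [h2, hx, mul_zero]
    rw [h1]
    exact Submodule.zero_mem _

end Pool.Agent.H97.VG
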