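import Pool.Agent.H17.VG.TargetsB

/-!
# Module PD of vyc_modules
-/

set_option autoImplicit false

namespace Pool.Agent.H97.VG

open Polynomial Pool.Agent.H17.VG

section

variable {R K : Type} [Field R] [Field K] [Algebra R K]

theorem pD_coeff (θ : Derivation R K K) (P : Polynomial K) (m : ℕ) :
    (pD θ P).coeff m = θ (P.coeff m) := by
  unfold pD
  rw [finsetSum_coeff]
  simp only [coeff_monomial]
  rw [Finset.sum_ite_eq' P.support m]
  by_cases h : m ∈ P.support
  · rw [if_pos h]
  · rw [if_neg h, notMem_support_iff.1 h, map_zero]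

theorem pD_add (θ : Derivation R K K) (P P' : Polynomial K) :
    pD θ (P + P') = pD θ P + pD θ P' := by
  ext m
  rw [pD_coeff, coeff_add, coeff_add, pD_coeff, pD_coeff, map_add]

theorem pD_mul (θ : Derivation R K K) (P P' : Polynomial K) :
    pD θ (P * P') = pD θ P * P' + P * pD θ P' := by
  ext m
  rw [pD_coeff, coeff_mul, coeff_add, coeff_mul, coeff_mul, map_sum, ← Finset.sum_add_distrib]
  refine Finset.sum_congr rfl fun x _ => ?_
  rw [Derivation.leibniz, pD_coeff, pD_coeff, smul_eq_mul, smul_eq_mul]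
  ring

theorem pD_C (θ : Derivation R K K) (a : K) : pD θ (C a) = C (θ a) := by
  ext m
  rw [pD_coeff, coeff_C, coeff_C]
  split_ifs
  · rfl
  · exact map_zero θ

theorem pD_X (θ : Derivation R K K) : pD θ (X : Polynomial K) = 0 := by
  ext m
  rw [pD_coeff, coeff_X, coeff_zero]
  split_ifs
  · exact θ.map_one_eq_zero
  · exact map_zero θ

theorem pD_zero (θ : Derivation R K K) : pD θ (0 : Polynomial K) = 0 := by
  ext m
  rw [pD_coeff, coeff_zero, map_zero]

end

/-- PD -/
theorem pd : T_PD := by
  intro R K _ _ _ θ P P' a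
  exact ⟨pD_add θ P P', pD_mul θ P P', pD_C θ a, pD_X θ, pD_zero θ⟩

end Pool.Agent.H97.VG
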