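import Pool.Agent.H97.VG.OP
import Pool.Agent.H97.VG.PD

/-!
# Modules EV, RE, DC of vyc_modules
-/

set_option autoImplicit false

namespace Pool.Agent.H97.VG

open MvPolynomial Pool.Agent.H17.VG

section

variable {R K : Type} [Field R] [Field K] [Algebra R K] {n : ℕ}

theorem ev' (τ : Op R K n) (G : MvPolynomial (Fin (n + 1)) K) (z : Fin (n + 1) → K) :
    τ.1 (eval z G) = eval z (opF τ G) + eval z (dir (opV τ z) G) := by
  induction G using MvPolynomial.induction_on with
  | C a => rw [eval_C, opF_C, dir_C, eval_C, map_zero, add_zero]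
  | add p q hp hq =>
    rw [map_add, map_add, hp, hq, opF_add, dir_add, map_add, map_add]
    ring
  | mul_X p i hp =>
    rw [map_mul, Derivation.leibniz, hp, opF_mul, dir_mul, map_add, map_add, map_mul, map_mul,
      map_mul, map_mul, eval_X, opF_X, dir_X, eval_C, smul_eq_mul, smul_eq_mul, map_sum]
    have h1 : ∑ j, eval z (C (τ.2 i j) * X j) = ∑ j, τ.2 i j * z j := by
      refine Finset.sum_congr rfl fun j _ => ?_
      rw [map_mul, eval_C, eval_X]
    rw [h1]
    unfold opV
    ring

theorem res_C (x y : Fin (n + 1) → K) (a : K) :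
    res x y (C a : MvPolynomial (Fin (n + 1)) K) = Polynomial.C a := by
  unfold res
  rw [aeval_C]
  rfl

theorem res_X (x y : Fin (n + 1) → K) (i : Fin (n + 1)) :
    res x y (X i : MvPolynomial (Fin (n + 1)) K) =
      Polynomial.C (x i) + Polynomial.C (y i) * Polynomial.X := by
  unfold res
  rw [aeval_X]

theorem res_add (x y : Fin (n + 1) → K) (G G' : MvPolynomial (Fin (n + 1)) K) :
    res x y (G + G') = res x y G + res x y G' := by
  unfold res
  rw [map_add]

theorem res_mul (x y : Fin (n + 1) → K) (G G' : MvPolynomial (Fin (n + 1)) K) :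
    res x y (G * G') = res x y G * res x y G' := by
  unfold res
  rw [map_mul]

theorem res_zero (x y : Fin (n + 1) → K) : res x y (0 : MvPolynomial (Fin (n + 1)) K) = 0 := by
  unfold res
  rw [map_zero]

theorem res_sum {ι : Type} (s : Finset ι) (x y : Fin (n + 1) → K)
    (G : ι → MvPolynomial (Fin (n + 1)) K) :
    res x y (∑ i ∈ s, G i) = ∑ i ∈ s, res x y (G i) := by
  unfold res
  rw [map_sum]

theorem re' (τ : Op R K n) (G : MvPolynomial (Fin (n + 1)) K) (x y : Fin (n + 1) → K) :
    pD τ.1 (res x y G) = res x y (opF τ G) + res x y (dir (opV τ x) G) +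
      Polynomial.X * res x y (dir (opV τ y) G) := by
  induction G using MvPolynomial.induction_on with
  | C a => rw [res_C, pD_C, opF_C, dir_C, dir_C, res_C, res_zero, mul_zero, add_zero, add_zero]
  | add p q hp hq =>
    rw [res_add, pD_add, hp, hq, opF_add, dir_add, dir_add, res_add, res_add, res_add]
    ring
  | mul_X p i hp =>
    rw [res_mul, pD_mul, hp, opF_mul, dir_mul, dir_mul, res_add, res_add, res_add, res_mul, res_mul,
      res_mul, res_mul, res_mul, res_mul, res_X, opF_X, dir_X, dir_X, res_C, res_C, res_sum]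
    have h1 : ∑ j, res x y (C (τ.2 i j) * X j) = Polynomial.C (∑ j, τ.2 i j * x j) +
        Polynomial.C (∑ j, τ.2 i j * y j) * Polynomial.X := by
      rw [map_sum, map_sum, Finset.sum_mul, ← Finset.sum_add_distrib]
      refine Finset.sum_congr rfl fun j _ => ?_
      rw [res_mul, res_C, res_X, Polynomial.C_mul, Polynomial.C_mul]
      ring
    rw [h1, pD_add, pD_mul, pD_C, pD_C, pD_X]
    unfold opV
    rw [Polynomial.C_sub, Polynomial.C_sub]
    ring

theorem dc' (τ : Op R K n) (G : MvPolynomial (Fin (n + 1)) K) (w : Fin (n + 1) → K) :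
    opF τ (dir w G) = dir w (opF τ G) + dir (opV τ w) G := by
  induction G using MvPolynomial.induction_on with
  | C a => rw [opF_C, dir_C, dir_C, dir_C, opF_zero, add_zero]
  | add p q hp hq =>
    rw [opF_add, dir_add, dir_add, dir_add, opF_add, hp, hq]
    ring
  | mul_X p i hp =>
    rw [dir_mul, opF_add, opF_mul, opF_mul, hp, dir_X, opF_C, opF_mul, opF_X, dir_add, dir_mul,
      dir_mul, dir_mul, dir_X, dir_X, dir_sum]
    have h1 : ∑ j, dir w (C (τ.2 i j) * X j) = C (∑ j, τ.2 i j * w j) := by
      rw [map_sum]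
      refine Finset.sum_congr rfl fun j _ => ?_
      rw [dir_mul, dir_C, dir_X, zero_mul, zero_add, C_mul]
    rw [h1]
    unfold opV
    rw [C_sub]
    ring

end

/-- EV -/
theorem ev : T_EV := by
  intro R K _ _ _ n τ G z
  exact ev' τ G z

/-- RE -/
theorem re : T_RE := by
  intro R K _ _ _ n τ G x y
  exact re' τ G x y

/-- DC -/
theorem dc : T_DC := by
  intro R K _ _ _ n τ G w
  exact dc' τ G w

end Pool.Agent.H97.VG
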