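import Pool.Agent.H17.VG.TargetsB

/-!
# Module CD of vyc_modules
-/

set_option autoImplicit false

namespace Pool.Agent.H97.VG

open MvPolynomial Pool.Agent.H17.VG

section

variable {R K : Type} [Field R] [Field K] [Algebra R K] {n : ℕ}

theorem cD_coeff (θ : Derivation R K K) (G : MvPolynomial (Fin (n + 1)) K)
    (m : Fin (n + 1) →₀ ℕ) : coeff m (cD θ G) = θ (coeff m G) := by
  unfold cD
  rw [coeff_sum]
  simp only [coeff_monomial]
  rw [Finset.sum_ite_eq' G.support m]
  by_cases h : m ∈ G.support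
  · rw [if_pos h]
  · rw [if_neg h, notMem_support_iff.1 h, map_zero]

theorem cD_add (θ : Derivation R K K) (G G' : MvPolynomial (Fin (n + 1)) K) :
    cD θ (G + G') = cD θ G + cD θ G' := by
  ext m
  rw [cD_coeff, coeff_add, coeff_add, cD_coeff, cD_coeff, map_add]

theorem cD_mul (θ : Derivation R K K) (G G' : MvPolynomial (Fin (n + 1)) K) :
    cD θ (G * G') = cD θ G * G' + G * cD θ G' := by
  ext m
  rw [cD_coeff, coeff_mul, coeff_add, coeff_mul, coeff_mul, map_sum, ← Finset.sum_add_distrib]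
  refine Finset.sum_congr rfl fun x _ => ?_
  rw [Derivation.leibniz, cD_coeff, cD_coeff, smul_eq_mul, smul_eq_mul]
  ring

theorem cD_C (θ : Derivation R K K) (a : K) :
    cD θ (C a : MvPolynomial (Fin (n + 1)) K) = C (θ a) := by
  ext m
  rw [cD_coeff, coeff_C, coeff_C]
  split_ifs
  · rfl
  · exact map_zero θ

theorem cD_X (θ : Derivation R K K) (i : Fin (n + 1)) :
    cD θ (X i : MvPolynomial (Fin (n + 1)) K) = 0 := by
  ext m
  rw [cD_coeff, coeff_X, coeff_zero]
  split_ifs
  · exact θ.map_one_eq_zero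
  · exact map_zero θ

theorem cD_zero (θ : Derivation R K K) : cD θ (0 : MvPolynomial (Fin (n + 1)) K) = 0 := by
  ext m
  rw [cD_coeff, coeff_zero, map_zero]

theorem cD_lin (θ θ' : Derivation R K K) (a b : K) (G : MvPolynomial (Fin (n + 1)) K) :
    cD (a • θ + b • θ') G = C a * cD θ G + C b * cD θ' G := by
  ext m
  rw [cD_coeff, coeff_add, coeff_C_mul, coeff_C_mul, cD_coeff, cD_coeff, Derivation.add_apply,
    Derivation.smul_apply, Derivation.smul_apply, smul_eq_mul, smul_eq_mul]

theorem cD_sum {ι : Type} (s : Finset ι) (θ : Derivation R K K)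
    (G : ι → MvPolynomial (Fin (n + 1)) K) : cD θ (∑ i ∈ s, G i) = ∑ i ∈ s, cD θ (G i) := by
  ext m
  rw [cD_coeff, coeff_sum, coeff_sum, map_sum]
  refine Finset.sum_congr rfl fun i _ => ?_
  rw [cD_coeff]

theorem cD_pderiv (θ : Derivation R K K) (i : Fin (n + 1)) (G : MvPolynomial (Fin (n + 1)) K) :
    cD θ (pderiv i G) = pderiv i (cD θ G) := by
  induction G using MvPolynomial.induction_on with
  | C a => rw [pderiv_C, cD_zero, cD_C, pderiv_C]
  | add p q hp hq => rw [map_add, cD_add, hp, hq, cD_add, map_add]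
  | mul_X p j hp =>
    rw [pderiv_mul, cD_add, cD_mul, cD_mul, hp, cD_X, mul_zero, add_zero, cD_mul, cD_X, mul_zero,
      add_zero, pderiv_mul]
    have h1 : cD θ (pderiv i (X j : MvPolynomial (Fin (n + 1)) K)) = 0 := by
      by_cases hij : j = i
      · subst hij
        rw [pderiv_X_self, ← C_1, cD_C, θ.map_one_eq_zero, C_0]
      · rw [pderiv_X_of_ne hij, cD_zero]
    rw [h1, mul_zero, add_zero]

theorem cD_homog (θ : Derivation R K K) (G : MvPolynomial (Fin (n + 1)) K) (d : ℕ)
    (h : G.IsHomogeneous d) : (cD θ G).IsHomogeneous d := by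
  intro m hm
  apply h
  intro h0
  apply hm
  rw [cD_coeff, h0, map_zero]

end

/-- CD -/
theorem cd : T_CD := by
  intro R K _ _ _ n θ θ' G G' a b m i d
  exact ⟨cD_coeff θ G m, cD_add θ G G', cD_mul θ G G', cD_C θ a, cD_X θ i, cD_lin θ θ' a b G,
    cD_pderiv θ i G, cD_homog θ G d⟩

end Pool.Agent.H97.VG
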