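import Pool.Agent.H97.VG.NA

/-!
# Module BI of vyc_modules
-/

set_option autoImplicit false

namespace Pool.Agent.H97.VG

open MvPolynomial Pool.Agent.H17.VG Pool.Agent.H27.LV

theorem finrank_pair {K : Type} [Field K] {n : ℕ} {x y : Fin (n + 1) → K} (h : Indep x y) :
    Module.finrank K (Submodule.span K {x, y}) = 2 := by
  have h1 := finrank_span_eq_card h
  rwa [Matrix.range_cons_cons_empty, Fintype.card_fin] at h1

/-- dimension of a space which contains the kernel -/
theorem finrank_map_mkQ {K V : Type} [Field K] [AddCommGroup V] [Module K V]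
    [FiniteDimensional K V] (N U : Submodule K V) (h : N ≤ U) :
    Module.finrank K U = Module.finrank K (U.map N.mkQ) + Module.finrank K N := by
  have h1 := LinearMap.finrank_range_add_finrank_ker (N.mkQ.comp U.subtype)
  have h2 : LinearMap.range (N.mkQ.comp U.subtype) = U.map N.mkQ := by
    rw [LinearMap.range_comp, Submodule.range_subtype]
  have h3 : LinearMap.ker (N.mkQ.comp U.subtype) = N.comap U.subtype := by
    rw [LinearMap.ker_comp, Submodule.ker_mkQ]
  rw [h2, h3, (Submodule.comapSubtypeEquivOfLe h).finrank_eq] at h1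
  exact h1.symm

theorem lin_mul_frm {K : Type} [Field K] {n e : ℕ} (ξ : Fin (n + 1) → K)
    (q : Mon (n + 1) e → K) : lin ξ * frm q =
      ∑ i, ∑ M : Mon (n + 1) e, C (ξ i * q M) * (X i * mono K M.1) := by
  unfold lin frm
  rw [Finset.sum_mul]
  refine Finset.sum_congr rfl fun i _ => ?_
  rw [Finset.mul_sum]
  refine Finset.sum_congr rfl fun M _ => ?_
  rw [C_mul]
  ring

/-- BI -/
theorem bi : T_BI := by
  classical
  intro R K _ _ _ _ n e F D x hS hx
  set N : Submodule K (Fin (n + 1) → K) := Submodule.span K {x, fun i => D (x i)} with hN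
  have h1 : ∀ (i : Fin (n + 1)) (M : Mon (n + 1) e), ∃ τ : Op R K n,
      opF τ F = X i * mono K M.1 := by
    intro i M
    apply hS.surj
    have h2 := (isHomogeneous_X K i).mul (isHomogeneous_mono (K := K) M)
    rwa [Nat.add_comm 1 e] at h2
  choose t ht using h1
  have hsym : ∀ (ξ : Fin (n + 1) → K) (q : Mon (n + 1) e → K),
      opF (∑ i, ∑ M : Mon (n + 1) e, (ξ i * q M) • t i M) F = lin ξ * frm q := by
    intro ξ q
    rw [opF_sum', lin_mul_frm]
    refine Finset.sum_congr rfl fun i _ => ?_
    rw [opF_sum']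
    refine Finset.sum_congr rfl fun M _ => ?_
    rw [opF_smul', ht]
  let B : Vx x →ₗ[K] (Mon (n + 1) e → K) →ₗ[K] ((Fin (n + 1) → K) ⧸ N) :=
    LinearMap.mk₂ K (fun ξ q => ∑ i, ∑ M : Mon (n + 1) e, (ξ.1 i * q M) • N.mkQ (opV (t i M) x))
      (by
        intro a b q
        rw [← Finset.sum_add_distrib]
        refine Finset.sum_congr rfl fun i _ => ?_
        rw [← Finset.sum_add_distrib]
        refine Finset.sum_congr rfl fun M _ => ?_
        rw [← add_smul, ← add_mul]
        rfl)
      (by
        intro c a q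
        rw [Finset.smul_sum]
        refine Finset.sum_congr rfl fun i _ => ?_
        rw [Finset.smul_sum]
        refine Finset.sum_congr rfl fun M _ => ?_
        rw [smul_smul, ← mul_assoc]
        rfl)
      (by
        intro a q q'
        rw [← Finset.sum_add_distrib]
        refine Finset.sum_congr rfl fun i _ => ?_
        rw [← Finset.sum_add_distrib]
        refine Finset.sum_congr rfl fun M _ => ?_
        rw [← add_smul, ← mul_add]
        rfl)
      (by
        intro c a q
        rw [Finset.smul_sum]
        refine Finset.sum_congr rfl fun i _ => ?_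
        rw [Finset.smul_sum]
        refine Finset.sum_congr rfl fun M _ => ?_
        rw [smul_smul, mul_left_comm]
        rfl)
  have hB : ∀ (ξ : Vx x) (q : Mon (n + 1) e → K), B ξ q =
      N.mkQ (opV (∑ i, ∑ M : Mon (n + 1) e, (ξ.1 i * q M) • t i M) x) := by
    intro ξ q
    rw [opV_sum', map_sum]
    change ∑ i, ∑ M : Mon (n + 1) e, (ξ.1 i * q M) • N.mkQ (opV (t i M) x) = _
    refine Finset.sum_congr rfl fun i _ => ?_
    rw [opV_sum', map_sum]
    refine Finset.sum_congr rfl fun M _ => ?_
    rw [opV_smul', map_smul]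
  refine ⟨B, fun P => ?_⟩
  set W := Submodule.span K {G | ∃ p ∈ P, G = lin p.1.1 * frm p.2} with hW
  have hNU : N ≤ Ut R F x W := by
    rw [hN, Submodule.span_le]
    rintro w (h | h)
    · rw [h]
      exact x_mem_ut F x W
    · rw [Set.mem_singleton_iff.1 h]
      exact Dx_mem_ut hS x W
  have hmap : (Ut R F x W).map N.mkQ = Submodule.span K {w | ∃ p ∈ P, w = B p.1 p.2} := by
    apply le_antisymm
    · rw [Submodule.map_le_iff_le_comap]
      refine ut_le hS x _ _ ?_ ?_ ?_
      · rw [Submodule.mem_comap]
        have h2 : N.mkQ x = 0 := by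
          rw [← LinearMap.mem_ker, Submodule.ker_mkQ]
          exact Submodule.subset_span (Or.inl rfl)
        rw [h2]
        exact Submodule.zero_mem _
      · rw [Submodule.mem_comap]
        have h2 : N.mkQ (fun i => D (x i)) = 0 := by
          rw [← LinearMap.mem_ker, Submodule.ker_mkQ]
          exact Submodule.subset_span (Or.inr rfl)
        rw [h2]
        exact Submodule.zero_mem _
      · rintro G ⟨p, hp, rfl⟩
        refine ⟨_, hsym p.1.1 p.2, ?_⟩
        rw [Submodule.mem_comap, ← hB]
        exact Submodule.subset_span ⟨p, hp, rfl⟩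
    · rw [Submodule.span_le]
      rintro w ⟨p, hp, rfl⟩
      rw [hB]
      refine Submodule.mem_map_of_mem (Submodule.subset_span (Or.inl ⟨_, ?_, rfl⟩))
      rw [hsym]
      exact Submodule.subset_span ⟨p, hp, rfl⟩
  rw [finrank_map_mkQ N _ hNU, hmap, finrank_pair hx]

end Pool.Agent.H97.VG
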