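import Pool.Agent.H97.VG.EV

/-!
# Module BR of vyc_modules
-/

set_option autoImplicit false

namespace Pool.Agent.H97.VG

open MvPolynomial Pool.Agent.H17.VG

section

variable {R K : Type} [Field R] [Field K] [Algebra R K] {n : ℕ}

theorem brk_one (τ τ' : Op R K n) (a : K) :
    (brk τ τ').1 a = τ.1 (τ'.1 a) - τ'.1 (τ.1 a) := Derivation.commutator_apply a

theorem brk_two (τ τ' : Op R K n) (i j : Fin (n + 1)) :
    (brk τ τ').2 i j = τ.1 (τ'.2 i j) - τ'.1 (τ.2 i j) +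
      (∑ l, τ'.2 i l * τ.2 l j - ∑ l, τ.2 i l * τ'.2 l j) := rfl

theorem opF_opF_X (τ τ' : Op R K n) (i : Fin (n + 1)) :
    opF τ (opF τ' (X i : MvPolynomial (Fin (n + 1)) K)) =
      ∑ j, C (τ.1 (τ'.2 i j) + ∑ l, τ'.2 i l * τ.2 l j) * X j := by
  rw [opF_X, opF_sum]
  have h1 : ∀ j, opF τ (C (τ'.2 i j) * X j : MvPolynomial (Fin (n + 1)) K) =
      C (τ.1 (τ'.2 i j)) * X j + ∑ l, C (τ'.2 i j * τ.2 j l) * X l := by
    intro j
    rw [opF_mul, opF_C, opF_X, Finset.mul_sum]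
    congr 1
    refine Finset.sum_congr rfl fun l _ => ?_
    rw [C_mul, mul_assoc]
  rw [Finset.sum_congr rfl fun j _ => h1 j, Finset.sum_add_distrib, Finset.sum_comm,
    ← Finset.sum_add_distrib]
  refine Finset.sum_congr rfl fun j _ => ?_
  rw [C_add, add_mul, ← Finset.sum_mul, ← map_sum]

theorem br1 (τ τ' : Op R K n) (G : MvPolynomial (Fin (n + 1)) K) :
    opF (brk τ τ') G = opF τ (opF τ' G) - opF τ' (opF τ G) := by
  induction G using MvPolynomial.induction_on with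
  | C a => rw [opF_C, opF_C, opF_C, opF_C, opF_C, brk_one, C_sub]
  | add p q hp hq =>
    rw [opF_add, opF_add, opF_add, opF_add, opF_add, hp, hq]
    ring
  | mul_X p i hp =>
    have h1 : opF (brk τ τ') (X i : MvPolynomial (Fin (n + 1)) K) =
        opF τ (opF τ' (X i)) - opF τ' (opF τ (X i)) := by
      rw [opF_opF_X, opF_opF_X, opF_X, ← Finset.sum_sub_distrib]
      refine Finset.sum_congr rfl fun j _ => ?_
      rw [brk_two, ← sub_mul, ← C_sub]
      congr 2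
      ring
    rw [opF_mul, hp, h1, opF_mul τ' p, opF_mul τ p, opF_add, opF_add, opF_mul, opF_mul, opF_mul,
      opF_mul]
    ring

theorem br2 (τ τ' : Op R K n) (z : Fin (n + 1) → K) :
    opV (brk τ τ') z = opV τ (opV τ' z) - opV τ' (opV τ z) := by
  funext i
  rw [Pi.sub_apply]
  have key : ∀ (τ τ' : Op R K n), opV τ (opV τ' z) i = τ.1 (τ'.1 (z i)) -
      ∑ j, (τ.1 (τ'.2 i j) * z j + τ'.2 i j * τ.1 (z j)) - ∑ j, τ.2 i j * τ'.1 (z j) +
      ∑ j, (∑ l, τ.2 i l * τ'.2 l j) * z j := by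
    intro τ τ'
    unfold opV
    rw [map_sub, map_sum]
    have h1 : ∑ j, τ.1 (τ'.2 i j * z j) = ∑ j, (τ.1 (τ'.2 i j) * z j + τ'.2 i j * τ.1 (z j)) := by
      refine Finset.sum_congr rfl fun j _ => ?_
      rw [Derivation.leibniz, smul_eq_mul, smul_eq_mul]
      ring
    have h2 : ∑ j, τ.2 i j * (τ'.1 (z j) - ∑ l, τ'.2 j l * z l) =
        ∑ j, τ.2 i j * τ'.1 (z j) - ∑ j, (∑ l, τ.2 i l * τ'.2 l j) * z j := by
      have h3 : ∑ j, (∑ l, τ.2 i l * τ'.2 l j) * z j = ∑ j, τ.2 i j * ∑ l, τ'.2 j l * z l := by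
        have h4 : ∀ j, (∑ l, τ.2 i l * τ'.2 l j) * z j = ∑ l, τ.2 i l * (τ'.2 l j * z j) := by
          intro j
          rw [Finset.sum_mul]
          refine Finset.sum_congr rfl fun l _ => ?_
          rw [mul_assoc]
        rw [Finset.sum_congr rfl fun j _ => h4 j, Finset.sum_comm]
        refine Finset.sum_congr rfl fun l _ => ?_
        rw [Finset.mul_sum]
      rw [h3, ← Finset.sum_sub_distrib]
      refine Finset.sum_congr rfl fun j _ => ?_
      rw [mul_sub]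
    rw [h1, h2]
    ring
  rw [key, key]
  unfold opV
  rw [brk_one]
  have h5 : ∑ j, (brk τ τ').2 i j * z j = ∑ j, τ.1 (τ'.2 i j) * z j - ∑ j, τ'.1 (τ.2 i j) * z j +
      (∑ j, (∑ l, τ'.2 i l * τ.2 l j) * z j - ∑ j, (∑ l, τ.2 i l * τ'.2 l j) * z j) := by
    rw [← Finset.sum_sub_distrib, ← Finset.sum_sub_distrib, ← Finset.sum_add_distrib]
    refine Finset.sum_congr rfl fun j _ => ?_
    rw [brk_two]
    ring
  rw [h5, Finset.sum_add_distrib, Finset.sum_add_distrib]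
  ring

end

/-- BR -/
theorem br : T_BR := by
  intro R K _ _ _ n τ τ' G z
  exact ⟨br1 τ τ' G, br2 τ τ' z⟩

end Pool.Agent.H97.VG
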