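import Pool.Agent.H97.VG.CD

/-!
# Modules OP and WD of vyc_modules
-/

set_option autoImplicit false

namespace Pool.Agent.H97.VG

open MvPolynomial Pool.Agent.H17.VG

section

variable {R K : Type} [Field R] [Field K] [Algebra R K] {n : ℕ}

/-- the part of `opF` which comes from the matrix -/
noncomputable def mF (A : Matrix (Fin (n + 1)) (Fin (n + 1)) K)
    (G : MvPolynomial (Fin (n + 1)) K) : MvPolynomial (Fin (n + 1)) K :=
  ∑ i, (∑ j, C (A i j) * X j) * pderiv i G

theorem opF_eq (τ : Op R K n) (G : MvPolynomial (Fin (n + 1)) K) :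
    opF τ G = cD τ.1 G + mF τ.2 G := rfl

theorem mF_add (A : Matrix (Fin (n + 1)) (Fin (n + 1)) K) (G G' : MvPolynomial (Fin (n + 1)) K) :
    mF A (G + G') = mF A G + mF A G' := by
  unfold mF
  rw [← Finset.sum_add_distrib]
  refine Finset.sum_congr rfl fun i _ => ?_
  rw [map_add, mul_add]

theorem mF_mul (A : Matrix (Fin (n + 1)) (Fin (n + 1)) K) (G G' : MvPolynomial (Fin (n + 1)) K) :
    mF A (G * G') = mF A G * G' + G * mF A G' := by
  unfold mF
  rw [Finset.sum_mul, Finset.mul_sum, ← Finset.sum_add_distrib]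
  refine Finset.sum_congr rfl fun i _ => ?_
  rw [pderiv_mul]
  ring

theorem mF_lin (A B : Matrix (Fin (n + 1)) (Fin (n + 1)) K) (a b : K)
    (G : MvPolynomial (Fin (n + 1)) K) :
    mF (a • A + b • B) G = C a * mF A G + C b * mF B G := by
  unfold mF
  rw [Finset.mul_sum, Finset.mul_sum, ← Finset.sum_add_distrib]
  refine Finset.sum_congr rfl fun i _ => ?_
  rw [← mul_assoc, ← mul_assoc, ← add_mul, Finset.mul_sum, Finset.mul_sum,
    ← Finset.sum_add_distrib]
  congr 1
  refine Finset.sum_congr rfl fun j _ => ?_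
  rw [Matrix.add_apply, Matrix.smul_apply, Matrix.smul_apply, smul_eq_mul, smul_eq_mul, C_add,
    C_mul, C_mul]
  ring

theorem linForm_homog (v : Fin (n + 1) → K) :
    (∑ j, C (v j) * X j : MvPolynomial (Fin (n + 1)) K).IsHomogeneous 1 := by
  refine IsHomogeneous.sum _ _ _ fun j _ => ?_
  have h := (isHomogeneous_C (Fin (n + 1)) (v j)).mul (isHomogeneous_X K j)
  rwa [zero_add] at h

theorem mF_homog (A : Matrix (Fin (n + 1)) (Fin (n + 1)) K) (G : MvPolynomial (Fin (n + 1)) K)
    (d : ℕ) (h : G.IsHomogeneous d) : (mF A G).IsHomogeneous d := by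
  unfold mF
  refine IsHomogeneous.sum _ _ _ fun i _ => ?_
  rcases d with _ | d
  · rw [(totalDegree_eq_zero_iff_eq_C.1 (Nat.le_zero.1 h.totalDegree_le)), pderiv_C, mul_zero]
    exact isHomogeneous_zero _ _ _
  · have h1 := (linForm_homog (A i)).mul (h.pderiv (i := i))
    rwa [Nat.add_sub_cancel, Nat.add_comm 1 d] at h1

theorem opF_add (τ : Op R K n) (G G' : MvPolynomial (Fin (n + 1)) K) :
    opF τ (G + G') = opF τ G + opF τ G' := by
  rw [opF_eq, opF_eq, opF_eq, cD_add, mF_add]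
  ring

theorem opF_mul (τ : Op R K n) (G G' : MvPolynomial (Fin (n + 1)) K) :
    opF τ (G * G') = opF τ G * G' + G * opF τ G' := by
  rw [opF_eq, opF_eq, opF_eq, cD_mul, mF_mul]
  ring

theorem opF_lin (τ τ' : Op R K n) (a b : K) (G : MvPolynomial (Fin (n + 1)) K) :
    opF (a • τ + b • τ') G = C a * opF τ G + C b * opF τ' G := by
  rw [opF_eq, opF_eq, opF_eq]
  have h1 : (a • τ + b • τ').1 = a • τ.1 + b • τ'.1 := rfl
  have h2 : (a • τ + b • τ').2 = a • τ.2 + b • τ'.2 := rfl
  rw [h1, h2, cD_lin, mF_lin]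
  ring

theorem opV_lin (τ τ' : Op R K n) (a b : K) (z : Fin (n + 1) → K) :
    opV (a • τ + b • τ') z = a • opV τ z + b • opV τ' z := by
  funext i
  have h1 : (a • τ + b • τ').1 = a • τ.1 + b • τ'.1 := rfl
  have h2 : (a • τ + b • τ').2 = a • τ.2 + b • τ'.2 := rfl
  have h3 : ∑ j, (a • τ.2 + b • τ'.2) i j * z j = a * ∑ j, τ.2 i j * z j +
      b * ∑ j, τ'.2 i j * z j := by
    rw [Finset.mul_sum, Finset.mul_sum, ← Finset.sum_add_distrib]
    refine Finset.sum_congr rfl fun j _ => ?_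
    rw [Matrix.add_apply, Matrix.smul_apply, Matrix.smul_apply, smul_eq_mul, smul_eq_mul]
    ring
  rw [Pi.add_apply, Pi.smul_apply, Pi.smul_apply]
  unfold opV
  rw [h1, h2, h3, Derivation.add_apply, Derivation.smul_apply, Derivation.smul_apply]
  simp only [smul_eq_mul]
  ring

theorem opF_homog (τ : Op R K n) (G : MvPolynomial (Fin (n + 1)) K) (d : ℕ)
    (h : G.IsHomogeneous d) : (opF τ G).IsHomogeneous d :=
  (cD_homog τ.1 G d h).add (mF_homog τ.2 G d h)

theorem opF_C (τ : Op R K n) (a : K) :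
    opF τ (C a : MvPolynomial (Fin (n + 1)) K) = C (τ.1 a) := by
  rw [opF_eq, cD_C]
  unfold mF
  rw [Finset.sum_eq_zero, add_zero]
  intro i _
  rw [pderiv_C, mul_zero]

theorem mF_X (A : Matrix (Fin (n + 1)) (Fin (n + 1)) K) (i : Fin (n + 1)) :
    mF A (X i : MvPolynomial (Fin (n + 1)) K) = ∑ j, C (A i j) * X j := by
  unfold mF
  rw [Finset.sum_eq_single i]
  · rw [pderiv_X_self, mul_one]
  · intro j _ hj
    rw [pderiv_X_of_ne hj.symm, mul_zero]
  · intro h
    exact absurd (Finset.mem_univ i) h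

theorem opF_X (τ : Op R K n) (i : Fin (n + 1)) :
    opF τ (X i : MvPolynomial (Fin (n + 1)) K) = ∑ j, C (τ.2 i j) * X j := by
  rw [opF_eq, cD_X, zero_add, mF_X]

theorem opF_zero (τ : Op R K n) : opF τ (0 : MvPolynomial (Fin (n + 1)) K) = 0 := by
  rw [← C_0, opF_C, map_zero, C_0]

theorem opF_sum {ι : Type} (s : Finset ι) (τ : Op R K n)
    (G : ι → MvPolynomial (Fin (n + 1)) K) : opF τ (∑ i ∈ s, G i) = ∑ i ∈ s, opF τ (G i) := by
  classical
  induction s using Finset.induction_on with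
  | empty => rw [Finset.sum_empty, Finset.sum_empty, opF_zero]
  | insert i s hi ih => rw [Finset.sum_insert hi, Finset.sum_insert hi, opF_add, ih]

theorem dir_add (w : Fin (n + 1) → K) (G G' : MvPolynomial (Fin (n + 1)) K) :
    dir w (G + G') = dir w G + dir w G' := by
  unfold dir
  rw [← Finset.sum_add_distrib]
  refine Finset.sum_congr rfl fun i _ => ?_
  rw [map_add, mul_add]

theorem dir_mul (w : Fin (n + 1) → K) (G G' : MvPolynomial (Fin (n + 1)) K) :
    dir w (G * G') = dir w G * G' + G * dir w G' := by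
  unfold dir
  rw [Finset.sum_mul, Finset.mul_sum, ← Finset.sum_add_distrib]
  refine Finset.sum_congr rfl fun i _ => ?_
  rw [pderiv_mul]
  ring

theorem dir_C (w : Fin (n + 1) → K) (a : K) :
    dir w (C a : MvPolynomial (Fin (n + 1)) K) = 0 := by
  unfold dir
  refine Finset.sum_eq_zero fun i _ => ?_
  rw [pderiv_C, mul_zero]

theorem dir_X (w : Fin (n + 1) → K) (i : Fin (n + 1)) :
    dir w (X i : MvPolynomial (Fin (n + 1)) K) = C (w i) := by
  unfold dir
  rw [Finset.sum_eq_single i]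
  · rw [pderiv_X_self, mul_one]
  · intro j _ hj
    rw [pderiv_X_of_ne hj.symm, mul_zero]
  · intro h
    exact absurd (Finset.mem_univ i) h

theorem dir_zero (w : Fin (n + 1) → K) : dir w (0 : MvPolynomial (Fin (n + 1)) K) = 0 := by
  rw [← C_0, dir_C, C_0]

theorem dir_sum {ι : Type} (s : Finset ι) (w : Fin (n + 1) → K)
    (G : ι → MvPolynomial (Fin (n + 1)) K) : dir w (∑ i ∈ s, G i) = ∑ i ∈ s, dir w (G i) := by
  classical
  induction s using Finset.induction_on with
  | empty => rw [Finset.sum_empty, Finset.sum_empty, dir_zero]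
  | insert i s hi ih => rw [Finset.sum_insert hi, Finset.sum_insert hi, dir_add, ih]

end

/-- OP -/
theorem op : T_OP := by
  intro R K _ _ _ n d τ τ' G G' a b z
  exact ⟨opF_add τ G G', opF_mul τ G G', opF_lin τ τ' a b G, opV_lin τ τ' a b z,
    opF_homog τ G d⟩

/-- WD -/
theorem wd : T_WD := by
  intro R K _ _ _ n d F D hS τ τ' h
  have h0 : opF ((1 : K) • τ + (-1 : K) • τ') F = 0 := by
    rw [opF_lin, h, C_1, C_neg, C_1]
    ring
  obtain ⟨h2, c, h1⟩ := hS.ker _ h0
  refine ⟨c, fun z => ?_⟩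
  have h3 : opV ((1 : K) • τ + (-1 : K) • τ') z = c • fun i => D (z i) := by
    funext i
    unfold opV
    rw [h1, h2]
    rw [Finset.sum_eq_zero, sub_zero]
    · rfl
    · intro j _
      rw [Matrix.zero_apply, zero_mul]
  rw [opV_lin, one_smul, neg_one_smul] at h3
  rw [← h3]
  abel

end Pool.Agent.H97.VG
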